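import Mathlib

open Finset Polynomial

namespace X190.CA

variable {p : ℕ} [hp : Fact p.Prime]

/-- Infinite descent: the distribution of `a x ^ q` has an injective convolution operator. -/
theorem fiber_dvd (a : ZMod p) (q : ℕ) (D : ZMod p → ℤ) (z : ZMod p) (hq : 1 ≤ q)
    (h : ∑ x, D (z - a * x ^ q) = 0) :
    ((univ.filter fun u : (ZMod p)ˣ => u ^ q = 1).card : ℤ) ∣ D z := by
  classical
  have h0 : ∑ x, D (z - a * x ^ q) =
      D z + ∑ u : (ZMod p)ˣ, D (z - a * ((u ^ q : (ZMod p)ˣ) : ZMod p)) := by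
    rw [← Finset.add_sum_erase _ _ (Finset.mem_univ (0 : ZMod p))]
    congr 1
    · rw [zero_pow (by omega)]; simp
    · symm
      refine Finset.sum_bij (fun u _ => (u : ZMod p)) ?_ ?_ ?_ ?_
      · intro u _; simp
      · intro u _ v _ huv; exact Units.ext huv
      · intro x hx
        rw [Finset.mem_erase] at hx
        exact ⟨Units.mk0 x hx.1, Finset.mem_univ _, rfl⟩
      · intro u _; simp
  have h1 : ((univ.filter fun u : (ZMod p)ˣ => u ^ q = 1).card : ℤ) ∣
      ∑ u : (ZMod p)ˣ, D (z - a * ((u ^ q : (ZMod p)ˣ) : ZMod p)) := by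
    rw [← Finset.sum_fiberwise univ (fun u : (ZMod p)ˣ => u ^ q)]
    refine Finset.dvd_sum fun y _ => ?_
    have h2 : ∑ u ∈ univ.filter (fun u : (ZMod p)ˣ => u ^ q = y),
        D (z - a * ((u ^ q : (ZMod p)ˣ) : ZMod p)) =
        ((univ.filter fun u : (ZMod p)ˣ => u ^ q = y).card : ℤ) * D (z - a * (y : ZMod p)) := by
      rw [Finset.sum_congr rfl (g := fun _ => D (z - a * (y : ZMod p)))]
      · simp
      · intro u hu
        rw [(Finset.mem_filter.1 hu).2]
    rw [h2]
    by_cases hy : ∃ u : (ZMod p)ˣ, u ^ q = y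
    · have := MonoidHom.card_fiber_eq_of_mem_range (powMonoidHom q : (ZMod p)ˣ →* (ZMod p)ˣ)
        (x := 1) (y := y) ⟨1, by simp⟩ ⟨hy.choose, hy.choose_spec⟩
      simp only [powMonoidHom_apply] at this
      rw [← this]
      exact dvd_mul_right _ _
    · have : (univ.filter fun u : (ZMod p)ˣ => u ^ q = y) = ∅ := by
        rw [Finset.filter_eq_empty_iff]
        intro u _ hu
        exact hy ⟨u, hu⟩
      rw [this]; simp
  rw [h0] at h
  have : D z = -∑ u : (ZMod p)ˣ, D (z - a * ((u ^ q : (ZMod p)ˣ) : ZMod p)) := by linarith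
  rw [this]
  exact (dvd_neg).2 h1

theorem two_le_card (q : ℕ) (hc : ¬ q.Coprime (p - 1)) :
    2 ≤ (univ.filter fun u : (ZMod p)ˣ => u ^ q = 1).card := by
  classical
  obtain ⟨l, hl, hlq, hlp⟩ := Nat.Prime.not_coprime_iff_dvd.1 hc
  haveI : Fact l.Prime := ⟨hl⟩
  have hcard : Fintype.card (ZMod p)ˣ = p - 1 := ZMod.card_units p
  obtain ⟨u, hu⟩ := exists_prime_orderOf_dvd_card l (hcard ▸ hlp : l ∣ Fintype.card (ZMod p)ˣ)
  have h1 : u ^ q = 1 := by
    rw [← orderOf_dvd_iff_pow_eq_one, hu]; exact hlq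
  have h2 : u ≠ 1 := by
    rintro rfl
    rw [orderOf_one] at hu
    exact hl.one_lt.ne hu
  have h3 : ({1, u} : Finset (ZMod p)ˣ) ⊆ univ.filter fun u : (ZMod p)ˣ => u ^ q = 1 := by
    intro v hv
    rw [Finset.mem_insert, Finset.mem_singleton] at hv
    rcases hv with rfl | rfl <;> simp [h1]
  calc 2 = ({1, u} : Finset (ZMod p)ˣ).card := (Finset.card_pair h2.symm).symm
    _ ≤ _ := Finset.card_le_card h3

theorem descent (a : ZMod p) (q : ℕ) (hq : 1 ≤ q) (hc : ¬ q.Coprime (p - 1))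
    (D : ZMod p → ℤ) (h : ∀ z, ∑ x, D (z - a * x ^ q) = 0) (z : ZMod p) : D z = 0 := by
  classical
  set n := (univ.filter fun u : (ZMod p)ˣ => u ^ q = 1).card with hn
  have hn2 : 2 ≤ n := two_le_card q hc
  have key : ∀ k : ℕ, ∀ D : ZMod p → ℤ, (∀ z, ∑ x, D (z - a * x ^ q) = 0) →
      ∀ z, ((n : ℤ) ^ k) ∣ D z := by
    intro k
    induction k with
    | zero => intro D _ z; simp
    | succ k ih =>
      intro D hD z
      have hdiv : ∀ z, (n : ℤ) ∣ D z := fun z => fiber_dvd a q D z hq (hD z)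
      choose D' hD' using hdiv
      have h1 : ∀ z, ∑ x, D' (z - a * x ^ q) = 0 := by
        intro z
        have := hD z
        simp only [hD', ← Finset.mul_sum] at this
        rcases mul_eq_zero.1 this with h0 | h0
        · exfalso
          have : (n : ℤ) ≠ 0 := by exact_mod_cast (by omega : n ≠ 0)
          exact this h0
        · exact h0
      rw [hD' z, pow_succ, mul_comm]
      exact mul_dvd_mul_left _ (ih D' h1 z)
  by_contra hne
  have h1 := key (D z).natAbs D h z
  have h2 : ((n : ℤ) ^ (D z).natAbs).natAbs ∣ (D z).natAbs := Int.natAbs_dvd_natAbs.2 h1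
  rw [Int.natAbs_pow, Int.natAbs_natCast] at h2
  have h3 := Nat.le_of_dvd (Int.natAbs_pos.2 hne) h2
  have h4 : (D z).natAbs < n ^ (D z).natAbs := Nat.lt_pow_self (by omega)
  omega

/-- Power sums. -/
theorem sum_pow_eq_neg_one (m : ℕ) (hm : 1 ≤ m) (hd : p - 1 ∣ m) :
    ∑ x : ZMod p, x ^ m = -1 := by
  classical
  obtain ⟨k, rfl⟩ := hd
  have h1 : ∀ x : ZMod p, x ^ ((p - 1) * k) = if x = 0 then 0 else 1 := by
    intro x
    split_ifs with h
    · rw [h, zero_pow (by omega)]
    · rw [pow_mul, ZMod.pow_card_sub_one_eq_one h, one_pow]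
  rw [Finset.sum_congr rfl fun x _ => h1 x]
  rw [Finset.sum_ite, Finset.sum_const_zero, zero_add, Finset.sum_const, nsmul_eq_mul, mul_one]
  have h2 : (univ.filter fun x : ZMod p => ¬ x = 0) = univ.erase 0 := by
    ext x; simp
  rw [h2, Finset.card_erase_of_mem (Finset.mem_univ _), Finset.card_univ, ZMod.card,
    Nat.cast_sub hp.out.one_le]
  simp

end X190.CA
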