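import Pool.Agent.X190.CA.Key

open Finset

namespace X190.CA

section Balance

variable {A : Type} [Fintype A] [DecidableEq A] [Nonempty A]

/-- Preimage words of `w`. -/
abbrev Pre (r n : ℕ) (f : (Fin (r + 1) → A) → A) (w : Fin n → A) : Type :=
  {v : Fin (n + r) → A // ∀ i : Fin n, f (fun t => v ⟨i + t, by omega⟩) = w i}

omit [Fintype A] [DecidableEq A] [Nonempty A] in
theorem block_lt {m n r : ℕ} {i : ℕ} (_ : i < m) {t : ℕ} (ht : t < n + r) :
    (i * (n + r) + t) / (n + r) = i ∧ (i * (n + r) + t) % (n + r) = t := by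
  have h0 : 0 < n + r := by omega
  constructor
  · rw [add_comm, Nat.add_mul_div_right _ _ h0, Nat.div_eq_of_lt ht, zero_add]
  · rw [add_comm, Nat.add_mul_mod_self_right, Nat.mod_eq_of_lt ht]

theorem card_ineq (r n : ℕ) (hn : 1 ≤ n) (f : (Fin (r + 1) → A) → A)
    (hs : ∀ y : ℕ → A, ∃ x : ℕ → A, ∀ i, f (fun t => x (i + t)) = y i) (w : Fin n → A) (m : ℕ) :
    (Fintype.card A ^ r) ^ m ≤ Fintype.card (Pre r n f w) ^ m * Fintype.card A ^ r := by
  classical
  choose X hX using hs
  let a0 : A := Classical.arbitrary A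
  let Yw : (Fin m → Fin r → A) → ℕ → A := fun s j =>
    if h : j / (n + r) < m then
      (if h2 : j % (n + r) < n then w ⟨j % (n + r), h2⟩
        else s ⟨j / (n + r), h⟩ ⟨j % (n + r) - n, by
          have := Nat.mod_lt j (show 0 < n + r by omega); omega⟩)
    else a0
  have hY1 : ∀ s : Fin m → Fin r → A, ∀ i : Fin m, ∀ t : Fin n,
      Yw s (i * (n + r) + t) = w t := by
    intro s i t
    obtain ⟨e1, e2⟩ := block_lt (n := n) (r := r) i.2 (t := (t : ℕ)) (by omega)
    simp only [Yw]
    rw [dif_pos (by rw [e1]; exact i.2), dif_pos (by rw [e2]; exact t.2)]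
    congr 1
    exact Fin.ext e2
  have hY2 : ∀ s : Fin m → Fin r → A, ∀ i : Fin m, ∀ t : Fin r,
      Yw s (i * (n + r) + (n + t)) = s i t := by
    intro s i t
    obtain ⟨e1, e2⟩ := block_lt (n := n) (r := r) i.2 (t := n + (t : ℕ)) (by omega)
    simp only [Yw]
    rw [dif_pos (by rw [e1]; exact i.2), dif_neg (by rw [e2]; omega)]
    congr 1
    · refine Fin.ext ?_
      exact e1
    · refine Fin.ext ?_
      simp only [e2]
      omega
  let Φ : (Fin m → Fin r → A) → (Fin m → Pre r n f w) × (Fin r → A) := fun s =>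
    (fun i => ⟨fun t => X (Yw s) (i * (n + r) + t), fun j => by
      have := hX (Yw s) (i * (n + r) + j)
      rw [hY1 s i j] at this
      rw [← this]
      congr 1
      funext t
      simp only [add_assoc]⟩, fun t => X (Yw s) (m * (n + r) + t))
  have hΦ : Function.Injective Φ := by
    intro s t hst
    have h1 : ∀ (i : Fin m) (l : Fin (n + r)),
        X (Yw s) (i * (n + r) + l) = X (Yw t) (i * (n + r) + l) := by
      intro i l
      have := congrArg (fun z => (z.1 i).1 l) hst
      exact this
    have h2 : ∀ l : Fin r, X (Yw s) (m * (n + r) + l) = X (Yw t) (m * (n + r) + l) := by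
      intro l
      exact congrFun (congrArg (fun z => z.2) hst) l
    have h3 : ∀ j < m * (n + r) + r, X (Yw s) j = X (Yw t) j := by
      intro j hj
      by_cases hjm : j < m * (n + r)
      · have h0 : 0 < n + r := by omega
        have hd : j / (n + r) < m := by rwa [Nat.div_lt_iff_lt_mul h0]
        have := h1 ⟨j / (n + r), hd⟩ ⟨j % (n + r), Nat.mod_lt _ h0⟩
        have e : j / (n + r) * (n + r) + j % (n + r) = j := by
          rw [mul_comm]; exact Nat.div_add_mod j (n + r)
        simpa only [e] using this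
      · have := h2 ⟨j - m * (n + r), by omega⟩
        have e : m * (n + r) + (j - m * (n + r)) = j := by omega
        simpa only [e] using this
    funext i l
    rw [← hY2 s i l, ← hY2 t i l, ← hX (Yw s), ← hX (Yw t)]
    congr 1
    funext u
    apply h3
    have hi : (i : ℕ) + 1 ≤ m := i.2
    have h4 : ((i : ℕ) + 1) * (n + r) ≤ m * (n + r) := Nat.mul_le_mul_right _ hi
    have h5 : ((i : ℕ) + 1) * (n + r) = i * (n + r) + (n + r) := by ring
    omega
  have := Fintype.card_le_of_injective Φ hΦ
  simpa only [Fintype.card_fun, Fintype.card_prod, Fintype.card_fin] using this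

theorem exists_pow_lt (c K : ℕ) (h : c < K) : ∃ m : ℕ, c ^ m * K < K ^ m := by
  have hK : (0 : ℝ) < K := by exact_mod_cast (by omega : 0 < K)
  have hr : (c : ℝ) / K < 1 := by rw [div_lt_one hK]; exact_mod_cast h
  have h1 : (0 : ℝ) < 1 / K := by positivity
  obtain ⟨m, hm⟩ := exists_pow_lt_of_lt_one h1 hr
  refine ⟨m, ?_⟩
  rw [div_pow, div_lt_div_iff₀ (by positivity) hK, one_mul] at hm
  exact_mod_cast hm

theorem card_ge (r n : ℕ) (hn : 1 ≤ n) (f : (Fin (r + 1) → A) → A)
    (hs : ∀ y : ℕ → A, ∃ x : ℕ → A, ∀ i, f (fun t => x (i + t)) = y i) (w : Fin n → A) :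
    Fintype.card A ^ r ≤ Fintype.card (Pre r n f w) := by
  by_contra h
  push Not at h
  obtain ⟨m, hm⟩ := exists_pow_lt _ _ h
  exact absurd (card_ineq r n hn f hs w m) (by omega)

/-- A surjective cellular automaton is balanced. -/
theorem card_eq (r n : ℕ) (hn : 1 ≤ n) (f : (Fin (r + 1) → A) → A)
    (hs : ∀ y : ℕ → A, ∃ x : ℕ → A, ∀ i, f (fun t => x (i + t)) = y i) (w : Fin n → A) :
    Fintype.card (Pre r n f w) = Fintype.card A ^ r := by
  classical
  have htot : ∑ w : Fin n → A, Fintype.card (Pre r n f w) =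
      ∑ _w : Fin n → A, Fintype.card A ^ r := by
    have e : (Σ w : Fin n → A, Pre r n f w) ≃ (Fin (n + r) → A) :=
      { toFun := fun z => z.2.1
        invFun := fun v => ⟨fun i => f (fun t => v ⟨i + t, by omega⟩), v, fun _ => rfl⟩
        left_inv := by
          rintro ⟨w, v, hv⟩
          obtain rfl : (fun i : Fin n => f (fun t => v ⟨i + t, by omega⟩)) = w := funext hv
          rfl
        right_inv := fun v => rfl }
    rw [← Fintype.card_sigma, Fintype.card_congr e]
    simp [pow_add, mul_comm]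
  have := (Finset.sum_eq_sum_iff_of_le
    (fun w _ => card_ge r n hn f hs w)).1 htot.symm w (Finset.mem_univ _)
  exact this.symm

end Balance

end X190.CA
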