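import Pool.Agent.X190.CA.Alg

open Finset Polynomial

namespace X190.CA

variable {p : ℕ} [hp : Fact p.Prime]

/-- If `(x, y) ↦ (π x + b y ^ q', a x ^ q + π y)` is a bijection then small power sums of
`π x + ρ a x ^ q` and of `b y ^ q' + ρ π y` cannot both be nonzero. -/
theorem power_sums (A B U V : ZMod p → ZMod p)
    (hbij : Function.Bijective
      (fun v : ZMod p × ZMod p => (A v.1 + B v.2, U v.1 + V v.2)))
    (ρ : ZMod p) (j k : ℕ) (hj : 2 * j ≤ p - 1) (hk : 2 * k ≤ p - 1) (hp3 : 3 ≤ p)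
    (h1 : ∑ x, (A x + ρ * U x) ^ j ≠ 0) (h2 : ∑ y, (B y + ρ * V y) ^ k ≠ 0) : False := by
  classical
  have hex1 : ∃ j, ∑ x, (A x + ρ * U x) ^ j ≠ 0 := ⟨j, h1⟩
  have hex2 : ∃ k, ∑ y, (B y + ρ * V y) ^ k ≠ 0 := ⟨k, h2⟩
  set i := Nat.find hex1 with hi
  set l := Nat.find hex2 with hl
  have hi1 : ∑ x, (A x + ρ * U x) ^ i ≠ 0 := Nat.find_spec hex1
  have hl1 : ∑ y, (B y + ρ * V y) ^ l ≠ 0 := Nat.find_spec hex2
  have hij : i ≤ j := Nat.find_min' hex1 h1
  have hlk : l ≤ k := Nat.find_min' hex2 h2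
  have hi0 : ∀ m < i, ∑ x, (A x + ρ * U x) ^ m = 0 := fun m hm => by
    by_contra hc; exact Nat.find_min hex1 hm hc
  have hl0 : ∀ m < l, ∑ y, (B y + ρ * V y) ^ m = 0 := fun m hm => by
    by_contra hc; exact Nat.find_min hex2 hm hc
  -- the double power sum
  have hsum0 : ∑ v : ZMod p × ZMod p, ((A v.1 + B v.2) + ρ * (U v.1 + V v.2)) ^ (i + l) = 0 := by
    have e1 : ∑ v : ZMod p × ZMod p, ((A v.1 + B v.2) + ρ * (U v.1 + V v.2)) ^ (i + l) =
        ∑ w : ZMod p × ZMod p, (w.1 + ρ * w.2) ^ (i + l) :=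
      hbij.sum_comp (fun w : ZMod p × ZMod p => (w.1 + ρ * w.2) ^ (i + l))
    rw [e1, Fintype.sum_prod_type]
    have e2 : ∀ u : ZMod p, ∑ v : ZMod p, (u + ρ * v) ^ (i + l) =
        ∑ m ∈ range (i + l + 1), u ^ m * (ρ ^ (i + l - m) * (∑ v : ZMod p, v ^ (i + l - m)) *
          ((i + l).choose m)) := by
      intro u
      simp only [add_pow, mul_pow]
      rw [Finset.sum_comm]
      refine Finset.sum_congr rfl fun m _ => ?_
      rw [Finset.mul_sum, Finset.sum_mul, Finset.mul_sum]
      refine Finset.sum_congr rfl fun v _ => ?_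
      ring
    simp only [e2]
    rw [Finset.sum_comm]
    refine Finset.sum_eq_zero fun m hm => ?_
    rw [← Finset.sum_mul]
    have hcard : Fintype.card (ZMod p) = p := ZMod.card p
    by_cases hm1 : m < p - 1
    · have : ∑ u : ZMod p, u ^ m = 0 := by
        apply FiniteField.sum_pow_lt_card_sub_one
        rw [hcard]; exact hm1
      rw [this, zero_mul]
    · have : ∑ v : ZMod p, v ^ (i + l - m) = 0 := by
        apply FiniteField.sum_pow_lt_card_sub_one
        rw [hcard]; omega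
      rw [this]; ring
  have hsum1 : ∑ v : ZMod p × ZMod p, ((A v.1 + B v.2) + ρ * (U v.1 + V v.2)) ^ (i + l) =
      ∑ m ∈ range (i + l + 1), (∑ x, (A x + ρ * U x) ^ m) *
        (∑ y, (B y + ρ * V y) ^ (i + l - m)) * ((i + l).choose m) := by
    rw [Fintype.sum_prod_type]
    have e3 : ∀ x y : ZMod p, ((A x + B y) + ρ * (U x + V y)) ^ (i + l) =
        ∑ m ∈ range (i + l + 1), (A x + ρ * U x) ^ m * (B y + ρ * V y) ^ (i + l - m) *
          ((i + l).choose m) := by
      intro x y
      rw [← add_pow]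
      congr 1; ring
    simp only [e3]
    rw [Finset.sum_congr rfl fun x _ => Finset.sum_comm]
    rw [Finset.sum_comm]
    refine Finset.sum_congr rfl fun m _ => ?_
    rw [Finset.sum_mul_sum, Finset.sum_mul]
    refine Finset.sum_congr rfl fun x _ => ?_
    rw [Finset.sum_mul]
  rw [hsum1, Finset.sum_eq_single i] at hsum0
  · rw [Nat.add_sub_cancel_left] at hsum0
    have hch : (((i + l).choose i : ℕ) : ZMod p) ≠ 0 := by
      rw [Ne, ZMod.natCast_eq_zero_iff]
      intro hd
      have h3 : p ∣ (i + l).factorial := by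
        rw [Nat.choose_symm_add] at hd
        rw [← Nat.add_choose_mul_factorial_mul_factorial i l, mul_assoc]
        exact hd.mul_right _
      rw [hp.out.dvd_factorial] at h3
      omega
    exact mul_ne_zero (mul_ne_zero hi1 hl1) hch hsum0
  · intro m _ hmi
    rcases lt_or_gt_of_ne hmi with h | h
    · rw [hi0 m h]; ring
    · by_cases hml : m ≤ i + l
      · rw [hl0 (i + l - m) (by omega)]; ring
      · rw [Nat.choose_eq_zero_of_lt (by omega)]; simp
  · intro h
    exact absurd (Finset.mem_range.2 (by omega)) h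

omit hp in
theorem exists_half (q : ℕ) (hq : 1 ≤ q) (hp3 : 3 ≤ p) (hc : ¬ q.Coprime (p - 1)) :
    ∃ j : ℕ, 1 ≤ j ∧ 2 * j ≤ p - 1 ∧ p - 1 ∣ q * j := by
  have hg : 2 ≤ q.gcd (p - 1) := by
    have h0 : 0 < q.gcd (p - 1) := Nat.gcd_pos_of_pos_left _ hq
    have h1 : q.gcd (p - 1) ≠ 1 := hc
    omega
  obtain ⟨j, hj⟩ := Nat.gcd_dvd_right q (p - 1)
  obtain ⟨r, hr⟩ := Nat.gcd_dvd_left q (p - 1)
  refine ⟨j, ?_, ?_, ?_⟩
  · rcases Nat.eq_zero_or_pos j with h | h
    · rw [h, mul_zero] at hj; omega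
    · exact h
  · calc 2 * j ≤ q.gcd (p - 1) * j := Nat.mul_le_mul_right _ hg
      _ = p - 1 := hj.symm
  · refine ⟨r, ?_⟩
    calc q * j = (q.gcd (p - 1) * r) * j := by rw [← hr]
      _ = (q.gcd (p - 1) * j) * r := by ring
      _ = (p - 1) * r := by rw [← hj]

theorem no_bij (a b : ZMod p) (ha : a ≠ 0) (hb : b ≠ 0) (q q' : ℕ) (hq : 1 ≤ q) (hq' : 1 ≤ q')
    (hp3 : 3 ≤ p) (hc : ¬ q.Coprime (p - 1)) (hc' : ¬ q'.Coprime (p - 1)) (π : ZMod p → ZMod p)
    (hbij : Function.Bijective
      (fun v : ZMod p × ZMod p => (π v.1 + b * v.2 ^ q', a * v.1 ^ q + π v.2))) : False := by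
  classical
  obtain ⟨j, hj1, hj2, hj3⟩ := exists_half q hq hp3 hc
  obtain ⟨k, hk1, hk2, hk3⟩ := exists_half q' hq' hp3 hc'
  let P : (ZMod p)[X] := ∑ x : ZMod p, (C (π x) + C (a * x ^ q) * X) ^ j
  let Q : (ZMod p)[X] := ∑ y : ZMod p, (C (b * y ^ q') + C (π y) * X) ^ k
  have hPdeg : P.natDegree ≤ j := by
    refine natDegree_sum_le_of_forall_le _ _ fun x _ => ?_
    have h2 : (C (π x) + C (a * x ^ q) * X : (ZMod p)[X]).natDegree ≤ 1 := by compute_degree
    have h3 := natDegree_pow_le_of_le j h2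
    omega
  have hQdeg : Q.natDegree ≤ k := by
    refine natDegree_sum_le_of_forall_le _ _ fun x _ => ?_
    have h2 : (C (b * x ^ q') + C (π x) * X : (ZMod p)[X]).natDegree ≤ 1 := by compute_degree
    have h3 := natDegree_pow_le_of_le k h2
    omega
  have hP0 : P ≠ 0 := by
    intro h
    have h1 : P.coeff j = a ^ j * ∑ x : ZMod p, x ^ (q * j) := by
      simp only [P, finsetSum_coeff]
      rw [Finset.mul_sum]
      refine Finset.sum_congr rfl fun x _ => ?_
      have h2 : (C (π x) + C (a * x ^ q) * X : (ZMod p)[X]).natDegree ≤ 1 := by compute_degree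
      have h3 := coeff_pow_of_natDegree_le (m := j) h2
      have h4 : (C (π x) + C (a * x ^ q) * X : (ZMod p)[X]).coeff 1 = a * x ^ q := by
        rw [coeff_add, coeff_C_mul, coeff_X_one, coeff_C]; simp
      rw [mul_one, h4] at h3
      rw [h3, mul_pow, pow_mul]
    rw [h, coeff_zero, sum_pow_eq_neg_one (q * j) (Nat.mul_pos hq hj1) hj3] at h1
    have := pow_ne_zero j ha
    apply this
    linear_combination h1
  have hQ0 : Q ≠ 0 := by
    intro h
    have h1 : Q.eval 0 = b ^ k * ∑ y : ZMod p, y ^ (q' * k) := by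
      simp only [Q, eval_finsetSum]
      rw [Finset.mul_sum]
      refine Finset.sum_congr rfl fun x _ => ?_
      simp [mul_pow, pow_mul]
    rw [h, eval_zero, sum_pow_eq_neg_one (q' * k) (Nat.mul_pos hq' hk1) hk3] at h1
    have := pow_ne_zero k hb
    apply this
    linear_combination h1
  have hPQ : P * Q = 0 := by
    refine eq_zero_of_natDegree_lt_card_of_eval_eq_zero (P * Q) (f := fun ρ : ZMod p => ρ)
      (fun _ _ h => h) (fun ρ => ?_) ?_
    · by_contra hne
      rw [eval_mul] at hne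
      have hne1 := left_ne_zero_of_mul hne
      have hne2 := right_ne_zero_of_mul hne
      refine power_sums π (fun y => b * y ^ q') (fun x => a * x ^ q) π hbij ρ j k hj2 hk2 hp3
        ?_ ?_
      · have h1 : P.eval ρ = ∑ x, (π x + ρ * (a * x ^ q)) ^ j := by
          simp only [P, eval_finsetSum]
          refine Finset.sum_congr rfl fun x _ => ?_
          simp only [eval_pow, eval_add, eval_C, eval_mul, eval_X]
          congr 1; ring
        rw [← h1]; exact hne1
      · have h1 : Q.eval ρ = ∑ y, (b * y ^ q' + ρ * π y) ^ k := by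
          simp only [Q, eval_finsetSum]
          refine Finset.sum_congr rfl fun x _ => ?_
          simp only [eval_pow, eval_add, eval_C, eval_mul, eval_X]
          congr 1; ring
        rw [← h1]; exact hne2
    · rw [ZMod.card]
      have := natDegree_mul_le (p := P) (q := Q)
      omega
  rcases mul_eq_zero.1 hPQ with h | h
  · exact hP0 h
  · exact hQ0 h

end X190.CA
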