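import Pool.Agent.X190.CA.Bal

open Finset

namespace X190.CA

variable {p : ℕ} [hp : Fact p.Prime]

/-- The equivalence of quadruples with words of length four. -/
def quad (A : Type) : (A × A) × (A × A) ≃ (Fin (2 + 2) → A) where
  toFun t := ![t.1.1, t.1.2, t.2.1, t.2.2]
  invFun v := ((v 0, v 1), (v 2, v 3))
  left_inv t := rfl
  right_inv v := by
    funext i
    fin_cases i <;> rfl

/-- Local rule as a function of a word of length three. -/
def rule (a b : ZMod p) (q q' : ℕ) (π : ZMod p → ZMod p) (v : Fin (2 + 1) → ZMod p) : ZMod p :=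
  a * v 0 ^ q + π (v 1) + b * v 2 ^ q'

theorem main (a b : ZMod p) (ha : a ≠ 0) (hb : b ≠ 0) (q q' : ℕ) (hq : 1 ≤ q) (hq' : 1 ≤ q')
    (hp3 : 3 ≤ p) (hc : ¬ q.Coprime (p - 1)) (hc' : ¬ q'.Coprime (p - 1)) (π : ZMod p → ZMod p)
    (hs : ∀ y : ℕ → ZMod p, ∃ x : ℕ → ZMod p, ∀ i,
      a * x i ^ q + π (x (i + 1)) + b * x (i + 2) ^ q' = y i) : False := by
  classical
  let M : ZMod p → ZMod p → ℤ := fun u v =>
    ∑ x1 : ZMod p, ∑ x2 : ZMod p,
      if π x1 + b * x2 ^ q' = u ∧ a * x1 ^ q + π x2 = v then (1 : ℤ) else 0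
  have hs' : ∀ y : ℕ → ZMod p, ∃ x : ℕ → ZMod p, ∀ i,
      rule a b q q' π (fun t => x (i + t)) = y i := by
    intro y
    obtain ⟨x, hx⟩ := hs y
    exact ⟨x, fun i => hx i⟩
  have hcount : ∀ w1 w2 : ZMod p,
      ∑ x0 : ZMod p, ∑ x3 : ZMod p, M (w1 - a * x0 ^ q) (w2 - b * x3 ^ q') = (p : ℤ) ^ 2 := by
    intro w1 w2
    have h1 := card_eq 2 2 (by norm_num) (rule a b q q' π) hs' ![w1, w2]
    rw [ZMod.card] at h1
    have h2 : ((Fintype.card (Pre 2 2 (rule a b q q' π) ![w1, w2]) : ℕ) : ℤ) = (p : ℤ) ^ 2 := by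
      rw [h1]; push_cast; ring
    rw [← h2, Fintype.card_subtype, Finset.card_filter]
    push_cast
    rw [← (quad (ZMod p)).sum_comp, Fintype.sum_prod_type, Fintype.sum_prod_type]
    refine Finset.sum_congr rfl fun x0 _ => ?_
    simp only [M]
    rw [Finset.sum_comm]
    refine Finset.sum_congr rfl fun x1 _ => ?_
    rw [Fintype.sum_prod_type, Finset.sum_comm]
    refine Finset.sum_congr rfl fun x2 _ => ?_
    refine Finset.sum_congr rfl fun x3 _ => ?_
    congr 1
    rw [Fin.forall_fin_two]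
    simp only [rule, quad, Equiv.coe_fn_mk, eq_iff_iff]
    constructor
    · rintro ⟨h3, h4⟩
      constructor
      · show a * x0 ^ q + π x1 + b * x2 ^ q' = w1
        linear_combination h3
      · show a * x1 ^ q + π x2 + b * x3 ^ q' = w2
        linear_combination h4
    · rintro ⟨h3, h4⟩
      have h3' : a * x0 ^ q + π x1 + b * x2 ^ q' = w1 := h3
      have h4' : a * x1 ^ q + π x2 + b * x3 ^ q' = w2 := h4
      constructor
      · linear_combination h3'
      · linear_combination h4'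
  have hM : ∀ u v, M u v - 1 = 0 := by
    have h1 : ∀ w2 w1, ∑ x3 : ZMod p, (M w1 (w2 - b * x3 ^ q') - 1) = 0 := by
      intro w2
      refine descent a q hq hc (fun u => ∑ x3 : ZMod p, (M u (w2 - b * x3 ^ q') - 1)) ?_
      intro w1
      have := hcount w1 w2
      simp only [Finset.sum_sub_distrib, this]
      simp [ZMod.card]
      ring
    intro u v
    exact descent b q' hq' hc' (fun v => M u v - 1) (fun w2 => h1 w2 u) v
  have hsurj : Function.Surjective
      (fun v : ZMod p × ZMod p => (π v.1 + b * v.2 ^ q', a * v.1 ^ q + π v.2)) := by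
    rintro ⟨u, v⟩
    by_contra hcon
    push Not at hcon
    have h0 : M u v = 0 := by
      refine Finset.sum_eq_zero fun x1 _ => Finset.sum_eq_zero fun x2 _ => ?_
      rw [if_neg]
      rintro ⟨h1, h2⟩
      exact hcon (x1, x2) (by simp [h1, h2])
    have := hM u v
    rw [h0] at this
    norm_num at this
  exact no_bij a b ha hb q q' hq hq' hp3 hc hc' π
    ⟨Finite.injective_iff_surjective.2 hsurj, hsurj⟩

end X190.CA
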